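import Mathlib

set_option autoImplicit false

/-! Two combinatorial lemmas: windows of large density, convergent subsequences of patterns. -/

namespace Pool.Agent.R485.ZO

open Finset Filter Topology

open Classical in
theorem card_add (P : ℕ → Prop) (s n : ℕ) :
    ((range (s + n)).filter P).card =
      ((range s).filter P).card + ((range n).filter (fun i => P (s + i))).card := by
  have h := Nat.count_add P s n
  rwa [Nat.count_eq_card_filter_range, Nat.count_eq_card_filter_range,
    Nat.count_eq_card_filter_range] at h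

open Classical in
/-- The rising sun lemma. -/
theorem sunrise (P : ℕ → Prop) {M h : ℕ} {δ : ℝ}
    (hS : δ * M < ((range M).filter P).card) (hh : (h : ℝ) ≤ δ / 2 * M) (hh0 : 0 < δ) :
    ∃ s, s + h ≤ M ∧ ∀ n, 1 ≤ n → n ≤ h →
      δ / 2 * n ≤ ((range n).filter (fun i => P (s + i))).card := by
  by_contra hcon
  push Not at hcon
  set T : Finset ℕ := (range (M + 1)).filter
    (fun s => (((range s).filter P).card : ℝ) ≤ δ / 2 * s) with hT
  have hne : T.Nonempty := ⟨0, by simp [hT]⟩
  set s := T.max' hne with hs
  have hsT : s ∈ T := T.max'_mem hne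
  rw [hT, mem_filter, mem_range] at hsT
  obtain ⟨hsM, hsc⟩ := hsT
  by_cases hsh : s + h ≤ M
  · obtain ⟨n, hn1, hnh, hn⟩ := hcon s hsh
    have hmem : s + n ∈ T := by
      rw [hT, mem_filter, mem_range]
      refine ⟨by omega, ?_⟩
      rw [card_add]
      push_cast
      nlinarith
    have := T.le_max' _ hmem
    omega
  · push Not at hsh
    obtain ⟨r, hr⟩ : ∃ r, M = s + r := ⟨M - s, by omega⟩
    have h1 : (((range M).filter P).card : ℝ) ≤ δ / 2 * s + r := by
      rw [hr, card_add]
      push_cast
      have h2 : ((range r).filter (fun i => P (s + i))).card ≤ r := by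
        refine (card_filter_le _ _).trans ?_
        rw [card_range]
      have h3 : ((((range r).filter (fun i => P (s + i))).card : ℕ) : ℝ) ≤ r := by exact_mod_cast h2
      linarith
    have h4 : (r : ℝ) ≤ h := by exact_mod_cast (by omega : r ≤ h)
    have h5 : (s : ℝ) ≤ M := by exact_mod_cast (by omega : s ≤ M)
    nlinarith

/-- A sequence of patterns has a subsequence converging to a pattern. -/
theorem pattern (χ : ℕ → ℕ → Prop) : ∃ φ : ℕ → ℕ, StrictMono φ ∧ ∃ a : ℕ → Prop,
    ∀ j, ∀ᶠ k in atTop, (χ (φ k) j ↔ a j) := by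
  classical
  obtain ⟨a, -, φ, hφ, h⟩ := (isCompact_univ (X := ℕ → Bool)).tendsto_subseq
    (x := fun n j => decide (χ n j)) (fun _ => Set.mem_univ _)
  refine ⟨φ, hφ, fun j => a j = true, fun j => ?_⟩
  have h1 := (tendsto_pi_nhds.1 h) j
  rw [nhds_discrete, tendsto_pure] at h1
  filter_upwards [h1] with k hk
  simp only [Function.comp] at hk
  rw [← hk]
  simp

end Pool.Agent.R485.ZO
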