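import Mathlib
import Pool.Agent.H705R2.Rot

set_option autoImplicit false

/-! Digits of integers and points of the circle. -/

namespace Pool.Agent.R485.ZO

open Finset Filter Topology
open Pool.Agent.H705R2

/-- the number of digits of `m` in base `b` -/
def nd (b m : ℕ) : ℕ := Nat.log b m + 1

/-- the number of occurrences of the word with value `W` and `k` digits in base `b` in `m` -/
def occ (b k W m : ℕ) : ℕ := ((range (nd b m + 1 - k)).filter (fun i => m / b ^ i % b ^ k = W)).card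

/-- the real number `y` is modulo one closer than `η` to a fraction with denominator at most `K`,
measured after multiplication by this denominator -/
def Near (K : ℕ) (η y : ℝ) : Prop := ∃ d : ℕ, 1 ≤ d ∧ d ≤ K ∧ ∃ z : ℤ, |(d : ℝ) * y - z| < η

/-- the circle set of a word -/
def UW (b k W : ℕ) : Set Circ :=
  (fun r : ℝ => (r : Circ)) '' (Set.Ioo ((W : ℝ) / b ^ k) (((W : ℝ) + 1) / b ^ k))

theorem UW_open (b k W : ℕ) : IsOpen (UW b k W) :=
  QuotientAddGroup.isOpenMap_coe _ isOpen_Ioo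

theorem UW_nonempty {b : ℕ} (hb : 2 ≤ b) (k W : ℕ) : (UW b k W).Nonempty := by
  apply Set.Nonempty.image
  rw [Set.nonempty_Ioo]
  have hb0 : (0:ℝ) < b := by exact_mod_cast (by omega : 0 < b)
  have : (0:ℝ) < (b:ℝ) ^ k := by positivity
  gcongr
  linarith

theorem word_of_mem {b : ℕ} (hb : 2 ≤ b) {k W m i : ℕ} (hW : W < b ^ k) (hki : k ≤ i)
    (h : (((m : ℝ) / (b : ℝ) ^ i : ℝ) : Circ) ∈ UW b k W) : m / b ^ (i - k) % b ^ k = W := by
  have hb0 : (0:ℝ) < b := by exact_mod_cast (by omega : 0 < b)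
  have hbk : (0:ℝ) < (b:ℝ) ^ k := by positivity
  have hbi : (0:ℝ) < (b:ℝ) ^ i := by positivity
  obtain ⟨r, ⟨hr1, hr2⟩, hr⟩ := h
  have hr' : (((m : ℝ) / (b : ℝ) ^ i - r : ℝ) : Circ) = 0 := by
    rw [AddCircle.coe_sub]
    simp only at hr
    rw [hr, sub_self]
  rw [AddCircle.coe_eq_zero_iff] at hr'
  obtain ⟨z, hz⟩ := hr'
  simp only [zsmul_eq_mul, mul_one] at hz
  have hr0 : 0 < r := lt_of_le_of_lt (by positivity) hr1
  have hr3 : r < 1 := by
    refine lt_of_lt_of_le hr2 ?_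
    rw [div_le_one hbk]
    exact_mod_cast hW
  set q := m / b ^ i with hqdef
  set t := m % b ^ i with htdef
  have hdm : (m : ℝ) = (b:ℝ)^i * (q : ℝ) + (t : ℝ) := by
    exact_mod_cast (Nat.div_add_mod m (b ^ i)).symm
  have hmodlt : (t : ℝ) < (b:ℝ)^i := by
    have := Nat.mod_lt m (show b ^ i > 0 by positivity)
    exact_mod_cast this
  have hq : (m : ℝ) / (b:ℝ)^i = (q : ℝ) + (t : ℝ) / (b:ℝ)^i := by
    rw [hdm]
    field_simp
  have ht0 : 0 ≤ (t : ℝ) / (b:ℝ)^i := by positivity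
  have ht1 : (t : ℝ) / (b:ℝ)^i < 1 := by rwa [div_lt_one hbi]
  have hqz : (q : ℤ) - z = 0 := by
    have h1 : (((q : ℤ) - z : ℤ) : ℝ) < 1 := by push_cast; linarith
    have h2 : (-1 : ℝ) < (((q : ℤ) - z : ℤ) : ℝ) := by push_cast; linarith
    have h3 : (q : ℤ) - z < 1 := by exact_mod_cast h1
    have h4 : (-1 : ℤ) < (q : ℤ) - z := by exact_mod_cast h2
    omega
  have hqz' : (q : ℝ) = z := by
    have : (q : ℤ) = z := by omega
    exact_mod_cast this
  have hrt : r = (t : ℝ) / (b:ℝ)^i := by linarith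
  obtain ⟨e, rfl⟩ : ∃ e, i = e + k := ⟨i - k, by omega⟩
  have hbe : (0:ℝ) < (b:ℝ) ^ e := by positivity
  have e1 : (t : ℝ) / (b:ℝ)^(e + k) = (t : ℝ) / (b:ℝ)^e / (b:ℝ)^k := by
    rw [pow_add, div_div]
  rw [hrt, e1, div_lt_div_iff_of_pos_right hbk, lt_div_iff₀ hbe] at hr1
  rw [hrt, e1, div_lt_div_iff_of_pos_right hbk, div_lt_iff₀ hbe] at hr2
  have hr1' : W * b ^ e < t := by exact_mod_cast hr1
  have hr2' : t < (W + 1) * b ^ e := by exact_mod_cast hr2
  have hdiv : t / b ^ e = W := by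
    apply Nat.div_eq_of_lt_le
    · exact hr1'.le
    · exact hr2'
  have e2 : e + k - k = e := by omega
  rw [e2, ← hdiv, htdef, pow_add, Nat.mod_mul_right_div_self]

open Classical in
theorem count_U {b : ℕ} (hb : 2 ≤ b) {k W : ℕ} (hW : W < b ^ k) (m D : ℕ) (hD : D ≤ nd b m) :
    ((range D).filter (fun i => (((m : ℝ) / (b : ℝ) ^ i : ℝ) : Circ) ∈ UW b k W)).card ≤
      k + occ b k W m := by
  have h1 : ((range D).filter (fun i => (((m : ℝ) / (b : ℝ) ^ i : ℝ) : Circ) ∈ UW b k W)) ⊆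
      range k ∪ (((range (nd b m + 1 - k)).filter
        (fun i => m / b ^ i % b ^ k = W)).image (fun i => i + k)) := by
    intro i hi
    rw [mem_filter, mem_range] at hi
    rw [mem_union, mem_range, mem_image]
    by_cases hik : i < k
    · exact Or.inl hik
    · right
      push Not at hik
      refine ⟨i - k, ?_, by omega⟩
      rw [mem_filter, mem_range]
      exact ⟨by omega, word_of_mem hb hW hik hi.2⟩
  refine (card_le_card h1).trans ((card_union_le _ _).trans ?_)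
  rw [card_range]
  exact Nat.add_le_add_left card_image_le _

theorem nd_mul_pow {b : ℕ} (hb : 2 ≤ b) (c m j : ℕ) (hc : 1 ≤ c) (hm : 1 ≤ m) :
    nd b m ≤ nd b (m * c ^ j) ∧ nd b (m * c ^ j) ≤ nd b m + j * nd b c := by
  have hb1 : 1 < b := by omega
  constructor
  · unfold nd
    have : Nat.log b m ≤ Nat.log b (m * c ^ j) :=
      Nat.log_mono_right (Nat.le_mul_of_pos_right _ (by positivity))
    omega
  · have h1 : m < b ^ nd b m := Nat.lt_pow_succ_log_self hb1 m
    have h2 : c < b ^ nd b c := Nat.lt_pow_succ_log_self hb1 c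
    have h3 : m * c ^ j < b ^ (nd b m + j * nd b c) := by
      rw [pow_add, mul_comm j, pow_mul]
      calc m * c ^ j < b ^ nd b m * c ^ j := by
            apply Nat.mul_lt_mul_of_pos_right h1 (by positivity)
        _ ≤ b ^ nd b m * (b ^ nd b c) ^ j := by gcongr
    have h4 := Nat.log_lt_of_lt_pow (by positivity) h3
    unfold nd at h4 ⊢
    omega

theorem near_of_norm {K : ℕ} {η y : ℝ} (h : ∃ d : ℕ, 1 ≤ d ∧ d ≤ K ∧ ‖d • (y : Circ)‖ < η) :
    Near K η y := by
  obtain ⟨d, h1, h2, h3⟩ := h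
  refine ⟨d, h1, h2, round ((d:ℝ) * y), ?_⟩
  rw [← AddCircle.coe_nsmul, AddCircle.norm_eq] at h3
  simpa [nsmul_eq_mul] using h3

end Pool.Agent.R485.ZO
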