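import Mathlib
import Pool.Agent.W765.Uni
import Pool.Agent.W765.KB2
import Pool.Agent.R485.ZO.Comb
import Pool.Agent.R485.ZO.Dig

set_option autoImplicit false

/-! The dichotomy for one word. -/

namespace Pool.Agent.R485.ZO

open Finset Filter Topology MeasureTheory
open Pool.Agent.H705R2 Pool.Agent.W765.KB

open scoped ENNReal

open Classical in
/-- the empirical measures of the orbit segment of an integer -/
theorem emp_count {b : ℕ} (hb : 2 ≤ b) (m D : ℕ) {G : Set Circ} (hG : MeasurableSet G) :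
    emp (fun x : Circ => b • x) (((m : ℝ) / (b : ℝ) ^ D : ℝ) : Circ) 1 D G =
      (D : ℝ≥0∞)⁻¹ * ((range D).filter
        (fun i => (((m : ℝ) / (b : ℝ) ^ i : ℝ) : Circ) ∈ G)).card := by
  have hb0 : (b:ℝ) ≠ 0 := by exact_mod_cast (by omega : b ≠ 0)
  rw [emp_apply hG]
  congr 2
  have hit : ∀ t : ℕ, ∀ x : Circ, (fun x : Circ => b • x)^[t] x = b ^ t • x := by
    intro t
    induction t with
    | zero => intro x; simp
    | succ t ih =>
      intro x
      rw [Function.iterate_succ_apply', ih, pow_succ', mul_smul]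
  apply card_bij (fun t _ => D - 1 - t)
  · intro t ht
    rw [mem_filter, mem_range] at ht ⊢
    refine ⟨by omega, ?_⟩
    have h1 := ht.2
    rw [hit, ← AddCircle.coe_nsmul] at h1
    convert h1 using 2
    have e : D = (D - 1 - t) + (1 + t) := by omega
    rw [nsmul_eq_mul]
    push_cast
    have h2 : (b:ℝ) ^ D = (b:ℝ) ^ (D - 1 - t) * (b:ℝ) ^ (1 + t) := by
      rw [← pow_add, ← e]
    rw [h2]
    field_simp
  · intro t ht t' ht' h
    rw [mem_filter, mem_range] at ht ht'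
    omega
  · intro i hi
    rw [mem_filter, mem_range] at hi
    refine ⟨D - 1 - i, ?_, by omega⟩
    rw [mem_filter, mem_range]
    refine ⟨by omega, ?_⟩
    rw [hit, ← AddCircle.coe_nsmul]
    convert hi.2 using 2
    have e : D = i + (1 + (D - 1 - i)) := by omega
    rw [nsmul_eq_mul]
    push_cast
    have h2 : (b:ℝ) ^ D = (b:ℝ) ^ i * (b:ℝ) ^ (1 + (D - 1 - i)) := by
      rw [← pow_add, ← e]
    rw [h2]
    field_simp

open Classical in
/-- Almost every point is killed by a bounded multiplier after finitely many steps. -/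
theorem ae_kill {b c : ℕ} (hb : 2 ≤ b) {U : Set Circ} (hU : IsOpen U) {δ : ℝ} (hδ : 0 < δ)
    {M₀ : ℕ} (hM₀ : ∀ x : Circ,
      (∀ j : ℕ, (M₀ : ℕ∞) ≤ (Set.range fun m : ℕ => b ^ m • c ^ j • x).encard) →
      ∀ s n : ℕ, M₀ ≤ n →
      (((range n).filter (fun i => ∀ m : ℕ, b ^ m • c ^ (s + i) • x ∉ U)).card : ℝ) ≤ δ / 4 * n)
    {P : Measure Circ} [IsProbabilityMeasure P]
    (hP : MeasurePreserving (fun x : Circ => b • x) P P) (S : ℕ → Prop)
    (hS : ∀ n : ℕ, 1 ≤ n → δ / 2 * n ≤ ((range n).filter S).card)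
    (hSU : ∀ j, S j → P {x | c ^ j • x ∈ U} = 0) :
    ∀ᵐ x ∂P, ∃ j d : ℕ, 1 ≤ d ∧ d ≤ b ^ M₀ ∧ d • c ^ j • x = 0 := by
  have hit : ∀ t : ℕ, ∀ x : Circ, (fun x : Circ => b • x)^[t] x = b ^ t • x := by
    intro t
    induction t with
    | zero => intro x; simp
    | succ t ih =>
      intro x
      rw [Function.iterate_succ_apply', ih, pow_succ', mul_smul]
  have h1 : ∀ j, S j → ∀ t : ℕ, P {x | b ^ t • c ^ j • x ∈ U} = 0 := by
    intro j hj t
    have h2 := (hP.iterate t).measure_preimage (s := {x | c ^ j • x ∈ U})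
      ((hU.preimage (continuous_nsmul _)).measurableSet.nullMeasurableSet)
    rw [hSU j hj] at h2
    convert h2 using 2
    ext x
    simp only [Set.mem_preimage, Set.mem_ofPred_eq, hit]
    rw [smul_comm]
  have h3 : ∀ᵐ x ∂P, ∀ j, S j → ∀ t : ℕ, b ^ t • c ^ j • x ∉ U := by
    rw [ae_all_iff]
    intro j
    by_cases hj : S j
    · have : ∀ᵐ x ∂P, ∀ t : ℕ, b ^ t • c ^ j • x ∉ U := by
        rw [ae_all_iff]
        intro t
        rw [ae_iff]
        simpa using h1 j hj t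
      filter_upwards [this] with x hx _
      exact hx
    · exact Eventually.of_forall fun x h => absurd h hj
  filter_upwards [h3] with x hx
  by_contra hcon
  push Not at hcon
  have h4 : ∀ j : ℕ, (M₀ : ℕ∞) ≤ (Set.range fun m : ℕ => b ^ m • c ^ j • x).encard := by
    intro j
    have hinj : Set.InjOn (fun m : ℕ => b ^ m • c ^ j • x) (Set.Iio M₀) := by
      have key : ∀ i i' : ℕ, i < i' → i' < M₀ → b ^ i • c ^ j • x ≠ b ^ i' • c ^ j • x := by
        intro i i' hii hi' heq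
        have hlt : b ^ i < b ^ i' := Nat.pow_lt_pow_right (by omega) hii
        have hle : b ^ i' ≤ b ^ M₀ := Nat.pow_le_pow_right (by omega) hi'.le
        refine hcon j (b ^ i' - b ^ i) (by omega) (by omega) ?_
        rw [sub_nsmul _ hlt.le, ← heq]
        simp
      intro i hi i' hi' heq
      rcases lt_trichotomy i i' with h | h | h
      · exact absurd heq (key i i' h hi')
      · exact h
      · exact absurd heq.symm (key i' i h hi)
    calc (M₀ : ℕ∞) = (Set.Iio M₀).encard := by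
          rw [← Finset.coe_range, Set.encard_coe_eq_coe_finsetCard, card_range]
      _ = ((fun m : ℕ => b ^ m • c ^ j • x) '' (Set.Iio M₀)).encard := hinj.encard_image.symm
      _ ≤ _ := Set.encard_le_encard (Set.image_subset_range _ _)
  have h5 := hM₀ x h4 0 (max M₀ 1) (le_max_left _ _)
  have h6 := hS (max M₀ 1) (le_max_right _ _)
  have h7 : ((range (max M₀ 1)).filter S) ⊆
      ((range (max M₀ 1)).filter (fun i => ∀ m : ℕ, b ^ m • c ^ (0 + i) • x ∉ U)) := by
    intro i hi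
    rw [mem_filter] at hi ⊢
    refine ⟨hi.1, fun m => ?_⟩
    rw [Nat.zero_add]
    exact hx i hi.2 m
  have h8 : (((range (max M₀ 1)).filter S).card : ℝ) ≤
      ((range (max M₀ 1)).filter (fun i => ∀ m : ℕ, b ^ m • c ^ (0 + i) • x ∉ U)).card := by
    exact_mod_cast card_le_card h7
  have h9 : (1:ℝ) ≤ ((max M₀ 1 : ℕ) : ℝ) := by exact_mod_cast le_max_right M₀ 1
  nlinarith

/-- The bounded multipliers suffice up to a small measure after one common number of steps. -/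
theorem common_step {c K : ℕ} {P : Measure Circ} [IsProbabilityMeasure P]
    (h : ∀ᵐ x ∂P, ∃ j d : ℕ, 1 ≤ d ∧ d ≤ K ∧ d • c ^ j • x = 0) {ε : ℝ} (hε : 0 < ε) :
    ∃ a : ℕ, ENNReal.ofReal (1 - ε) < P {x | ∃ d : ℕ, 1 ≤ d ∧ d ≤ K ∧ d • c ^ a • x = 0} := by
  set E : ℕ → Set Circ := fun a => {x | ∃ d : ℕ, 1 ≤ d ∧ d ≤ K ∧ d • c ^ a • x = 0} with hE
  have hmono : Monotone E := by
    refine monotone_nat_of_le_succ fun a x hx => ?_
    obtain ⟨d, h1, h2, h3⟩ := hx
    refine ⟨d, h1, h2, ?_⟩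
    rw [pow_succ', mul_smul, smul_comm, h3, smul_zero]
  have hU : P (⋃ a, E a) = 1 := by
    have h1 : (⋃ a, E a) =ᵐ[P] Set.univ := by
      rw [eventuallyEq_univ]
      filter_upwards [h] with x hx
      obtain ⟨j, d, h1, h2, h3⟩ := hx
      exact Set.mem_iUnion.2 ⟨j, d, h1, h2, h3⟩
    rw [measure_congr h1, measure_univ]
  have ht := tendsto_measure_iUnion_atTop (μ := P) hmono
  rw [hU] at ht
  have hlt : ENNReal.ofReal (1 - ε) < 1 := by
    rw [← ENNReal.ofReal_one]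
    exact (ENNReal.ofReal_lt_ofReal_iff one_pos).2 (by linarith)
  obtain ⟨a, ha⟩ := (ht.eventually_const_lt hlt).exists
  exact ⟨a, ha⟩

open Classical in
theorem core {b c : ℕ} (hb : 2 ≤ b) (hc : 2 ≤ c) (h : MulIndep b c) {k W : ℕ} (hW : W < b ^ k)
    {δ : ℝ} (hδ : 0 < δ) :
    ∃ K : ℕ, ∀ ε : ℝ, 0 < ε → ∀ η : ℝ, 0 < η → ∃ L₀ : ℕ, ∀ L : ℕ, L₀ ≤ L → ∀ m : ℕ,
      b ^ (L ^ 3) ≤ m →
      (((range (L ^ 2)).filter
        (fun j => (L : ℝ) * occ b k W (m * c ^ j) < nd b (m * c ^ j))).card : ℝ) ≤ δ * (L : ℝ) ^ 2 ∨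
      ∃ j < L ^ 2, (1 - ε) * nd b (m * c ^ j) ≤ ((range (nd b (m * c ^ j))).filter
        (fun i => Near K η (((m * c ^ j : ℕ) : ℝ) / (b : ℝ) ^ i))).card := by
  have hUo := UW_open b k W
  obtain ⟨M₀, hM₀⟩ := Pool.Agent.W765.Det.uniform_orbit hb hc h hUo (UW_nonempty hb k W)
    (show 0 < δ / 4 by positivity)
  refine ⟨b ^ M₀, fun ε hε η hη => ?_⟩
  by_contra hcon
  push Not at hcon
  -- the sequences
  have hex : ∀ n : ℕ, ∃ L m s : ℕ, n + 1 ≤ L ∧ b ^ (L ^ 3) ≤ m ∧ s + (n + 1) ≤ L ^ 2 ∧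
      (∀ t, 1 ≤ t → t ≤ n + 1 → δ / 2 * t ≤ ((range t).filter (fun i =>
        (L : ℝ) * occ b k W (m * c ^ (s + i)) < nd b (m * c ^ (s + i)))).card) ∧
      (∀ j < L ^ 2, (((range (nd b (m * c ^ j))).filter
        (fun i => Near (b ^ M₀) η (((m * c ^ j : ℕ) : ℝ) / (b : ℝ) ^ i))).card : ℝ) <
          (1 - ε) * nd b (m * c ^ j)) := by
    intro n
    obtain ⟨L, hL, m, hm, h1, h2⟩ := hcon (max (n + 1) ⌈2 / δ⌉₊)
    have hL1 : n + 1 ≤ L := (le_max_left _ _).trans hL
    have hL2 : 2 / δ ≤ L := (Nat.le_ceil _).trans (by exact_mod_cast (le_max_right _ _).trans hL)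
    have hL3 : ((n + 1 : ℕ) : ℝ) ≤ L := by exact_mod_cast hL1
    have hL0 : (0:ℝ) < L := lt_of_lt_of_le (by positivity) hL3
    obtain ⟨s, hs1, hs2⟩ := sunrise
      (fun j => (L : ℝ) * occ b k W (m * c ^ j) < nd b (m * c ^ j)) (M := L ^ 2) (h := n + 1)
      (δ := δ) (by push_cast; exact h1) (by
        push_cast
        push_cast at hL3
        have h3 : 1 ≤ δ / 2 * L := by
          rw [div_le_iff₀ hδ] at hL2
          linarith
        nlinarith) hδ
    exact ⟨L, m, s, hL1, hm, hs1, hs2, h2⟩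
  choose L m s hL hm hs hdens hnp using hex
  set m' : ℕ → ℕ := fun n => m n * c ^ s n with hm'
  set D : ℕ → ℕ := fun n => nd b (m' n) with hD
  have hb1 : 1 < b := by omega
  have hmpos : ∀ n, 1 ≤ m n := fun n => le_trans (Nat.one_le_pow _ _ (by omega)) (hm n)
  have hm'pos : ∀ n, 1 ≤ m' n := fun n => Nat.one_le_iff_ne_zero.2 (by
    have := hmpos n
    simp only [hm']
    positivity)
  have hDL : ∀ n, L n ^ 3 ≤ D n := by
    intro n
    have h1 : L n ^ 3 ≤ Nat.log b (m n) := by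
      have := Nat.log_mono_right (b := b) (hm n)
      rwa [Nat.log_pow hb1] at this
    have h2 := (nd_mul_pow hb c (m n) (s n) (by omega) (hmpos n)).1
    unfold nd at h2
    simp only [hD, hm', nd]
    omega
  have hDn : ∀ n, n + 1 ≤ D n := fun n =>
    (hL n).trans ((Nat.le_self_pow (by norm_num) _).trans (hDL n))
  -- the patterns
  obtain ⟨φ, hφ, S, hSlim⟩ := pattern (fun n j =>
    (L n : ℝ) * occ b k W (m n * c ^ (s n + j)) < nd b (m n * c ^ (s n + j)))
  have hφn : ∀ n, n ≤ φ n := fun n => hφ.le_apply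
  have hS : ∀ n : ℕ, 1 ≤ n → δ / 2 * n ≤ ((range n).filter S).card := by
    intro n hn
    have h1 : ∀ᶠ t in atTop, ∀ j ∈ range n, ((L (φ t) : ℝ) *
        occ b k W (m (φ t) * c ^ (s (φ t) + j)) < nd b (m (φ t) * c ^ (s (φ t) + j)) ↔ S j) :=
      (Filter.eventually_all_finset _).2 fun j _ => hSlim j
    obtain ⟨t, ht1, ht2⟩ := (h1.and (eventually_ge_atTop n)).exists
    have h2 := hdens (φ t) n hn (by have := hφn t; omega)
    refine h2.trans (le_of_eq ?_)
    congr 2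
    apply filter_congr
    exact ht1
  -- the limit measure
  obtain ⟨P, hP1, hP2, hP3⟩ := kb2 (f := fun x : Circ => b • x) (continuous_nsmul b)
    (fun t => (((m' (φ t) : ℝ) / (b : ℝ) ^ (D (φ t)) : ℝ) : Circ)) (fun _ => 1)
    (fun t => D (φ t)) (by
      refine tendsto_atTop_mono (fun t => ?_) tendsto_id
      have h1 := hDn (φ t)
      have h2 := hφn t
      simp only [id]
      omega) (fun t => by have := hDn (φ t); omega)
  -- an auxiliary bound for empirical measures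
  have hemp : ∀ G : Set Circ, MeasurableSet G → ∀ t : ℕ, ∀ C : ℝ, 0 ≤ C →
      (((range (D (φ t))).filter
        (fun i => (((m' (φ t) : ℝ) / (b : ℝ) ^ i : ℝ) : Circ) ∈ G)).card : ℝ) ≤ C * D (φ t) →
      emp (fun x : Circ => b • x) (((m' (φ t) : ℝ) / (b : ℝ) ^ (D (φ t)) : ℝ) : Circ) 1
        (D (φ t)) G ≤ ENNReal.ofReal C := by
    intro G hG t C hC hcard
    rw [emp_count hb _ _ hG]
    have hD0 : (0:ℝ) < D (φ t) := by
      have := hDn (φ t)
      exact_mod_cast (by omega : 0 < D (φ t))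
    have e1 : ((D (φ t) : ℕ) : ℝ≥0∞)⁻¹ = ENNReal.ofReal ((D (φ t) : ℝ)⁻¹) := by
      rw [ENNReal.ofReal_inv_of_pos hD0, ENNReal.ofReal_natCast]
    rw [e1, ← ENNReal.ofReal_natCast, ← ENNReal.ofReal_mul (by positivity)]
    apply ENNReal.ofReal_le_ofReal
    rw [inv_mul_le_iff₀ hD0]
    linarith
  have hshift : ∀ n j, m' n * c ^ j = m n * c ^ (s n + j) := by
    intro n j
    simp only [hm']
    rw [pow_add, mul_assoc]
  have hcoe : ∀ n i j : ℕ, (c ^ j • (((m' n : ℝ) / (b : ℝ) ^ i : ℝ) : Circ) : Circ) =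
      ((((m' n * c ^ j : ℕ) : ℝ) / (b : ℝ) ^ i : ℝ) : Circ) := by
    intro n i j
    rw [← AddCircle.coe_nsmul, nsmul_eq_mul]
    congr 1
    push_cast
    ring
  have hLR : ∀ t : ℕ, (t : ℝ) + 1 ≤ L (φ t) := by
    intro t
    have h1 := hL (φ t)
    have h2 := hφn t
    exact_mod_cast (by omega : t + 1 ≤ L (φ t))
  have hDLR : ∀ t : ℕ, (L (φ t) : ℝ) ≤ D (φ t) := by
    intro t
    exact_mod_cast (Nat.le_self_pow (by norm_num) _).trans (hDL (φ t))
  have hSU : ∀ j, S j → P {x | c ^ j • x ∈ UW b k W} = 0 := by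
    intro j hj
    have hopen : IsOpen {x : Circ | c ^ j • x ∈ UW b k W} := hUo.preimage (continuous_nsmul _)
    have hle : ∀ c0 : ℝ, 0 < c0 → P {x | c ^ j • x ∈ UW b k W} ≤ ENNReal.ofReal c0 := by
      intro c0 hc0
      apply hP3 _ hopen
      filter_upwards [hSlim j, eventually_ge_atTop ⌈((k:ℝ) + 1 + j * nd b c) / c0⌉₊] with t h1 h2
      apply hemp _ hopen.measurableSet _ _ hc0.le
      have h3 := h1.2 hj
      rw [← hshift] at h3
      have h4 := nd_mul_pow hb c (m' (φ t)) j (by omega) (hm'pos _)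
      have h5 : (((range (D (φ t))).filter (fun i =>
          (((m' (φ t) : ℝ) / (b : ℝ) ^ i : ℝ) : Circ) ∈ {x : Circ | c ^ j • x ∈ UW b k W})).card) ≤
          k + occ b k W (m' (φ t) * c ^ j) := by
        refine le_trans (le_of_eq ?_) (count_U hb hW (m' (φ t) * c ^ j) (D (φ t)) h4.1)
        congr 1
        apply filter_congr
        intro i _
        rw [Set.mem_ofPred_eq, hcoe]
      have h6 : ((((range (D (φ t))).filter (fun i =>
          (((m' (φ t) : ℝ) / (b : ℝ) ^ i : ℝ) : Circ) ∈ {x : Circ | c ^ j • x ∈ UW b k W})).card : ℕ) : ℝ) ≤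
          k + occ b k W (m' (φ t) * c ^ j) := by exact_mod_cast h5
      refine h6.trans ?_
      have h7 : (nd b (m' (φ t) * c ^ j) : ℝ) ≤ D (φ t) + j * nd b c := by exact_mod_cast h4.2
      have h8 := hLR t
      have h9 := hDLR t
      have h10 : ((k:ℝ) + 1 + j * nd b c) / c0 ≤ L (φ t) := by
        have := (Nat.le_ceil _).trans (by exact_mod_cast h2 : ((⌈((k:ℝ) + 1 + j * nd b c) / c0⌉₊ : ℕ) : ℝ) ≤ t)
        linarith
      rw [div_le_iff₀ hc0] at h10
      have hL0 : (0:ℝ) < L (φ t) := by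
        have : (0:ℝ) ≤ t := Nat.cast_nonneg t
        linarith
      have hD0 : (0:ℝ) < D (φ t) := by linarith
      have hjn : (0:ℝ) ≤ (j:ℝ) * nd b c := by positivity
      have hk0 : (0:ℝ) ≤ k := Nat.cast_nonneg k
      have hD1 : (1:ℝ) ≤ D (φ t) := by
        have : (0:ℝ) ≤ t := Nat.cast_nonneg t
        linarith
      have h11 : (L (φ t) : ℝ) * (k + occ b k W (m' (φ t) * c ^ j)) ≤ L (φ t) * (c0 * D (φ t)) := by
        calc (L (φ t) : ℝ) * (k + occ b k W (m' (φ t) * c ^ j))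
            ≤ L (φ t) * k + (D (φ t) + j * nd b c) := by nlinarith
          _ ≤ D (φ t) * k + (D (φ t) + (j * nd b c) * D (φ t)) := by nlinarith
          _ = ((k:ℝ) + 1 + j * nd b c) * D (φ t) := by ring
          _ ≤ (L (φ t) * c0) * D (φ t) := by
              apply mul_le_mul_of_nonneg_right h10 hD0.le
          _ = _ := by ring
      exact le_of_mul_le_mul_left h11 hL0
    have ht : Tendsto (fun n : ℕ => ENNReal.ofReal (1/((n:ℝ)+1))) atTop (𝓝 0) := by
      simpa using ENNReal.tendsto_ofReal (tendsto_one_div_add_atTop_nhds_zero_nat (𝕜 := ℝ))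
    exact le_antisymm (ge_of_tendsto' ht (fun n => hle _ (by positivity))) zero_le
  by_cases hε1 : 1 - ε < 0
  · have h1 := hnp 0 0 (by
      have := hL 0
      positivity)
    have h2 : (0:ℝ) ≤ nd b (m 0 * c ^ 0) := Nat.cast_nonneg _
    have h3 : (0:ℝ) ≤ (((range (nd b (m 0 * c ^ 0))).filter
        (fun i => Near (b ^ M₀) η (((m 0 * c ^ 0 : ℕ) : ℝ) / (b : ℝ) ^ i))).card : ℝ) :=
      Nat.cast_nonneg _
    nlinarith
  push Not at hε1
  obtain ⟨a, ha⟩ := common_step (ae_kill hb hUo hδ hM₀ hP2 S hS hSU)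
    (show 0 < ε / 2 by positivity)
  set V : Set Circ := {x | ∃ d : ℕ, 1 ≤ d ∧ d ≤ b ^ M₀ ∧ ‖d • c ^ a • x‖ < η} with hV
  have hVo : IsOpen V := by
    have e : V = ⋃ d : ℕ, ⋃ (_ : 1 ≤ d ∧ d ≤ b ^ M₀), {x : Circ | ‖d • c ^ a • x‖ < η} := by
      ext x
      simp only [hV, Set.mem_iUnion, Set.mem_ofPred_eq, exists_prop]
      constructor
      · rintro ⟨d, h1, h2, h3⟩
        exact ⟨d, ⟨h1, h2⟩, h3⟩
      · rintro ⟨d, ⟨h1, h2⟩, h3⟩
        exact ⟨d, h1, h2, h3⟩
    rw [e]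
    refine isOpen_iUnion fun d => isOpen_iUnion fun _ => ?_
    exact isOpen_lt (((continuous_nsmul _).comp (continuous_nsmul _)).norm) continuous_const
  have hsub : {x : Circ | ∃ d : ℕ, 1 ≤ d ∧ d ≤ b ^ M₀ ∧ d • c ^ a • x = 0} ⊆ V := by
    rintro x ⟨d, h1, h2, h3⟩
    refine ⟨d, h1, h2, ?_⟩
    rw [h3, norm_zero]
    exact hη
  have hPV : P V ≤ ENNReal.ofReal (1 - ε / 2) := by
    apply hP3 _ hVo
    filter_upwards [eventually_ge_atTop a, eventually_ge_atTop ⌈((a:ℝ) * nd b c) / (ε / 2)⌉₊]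
      with t h0 h2
    apply hemp _ hVo.measurableSet _ _ (by linarith)
    have hsa : s (φ t) + a < L (φ t) ^ 2 := by
      have h3 := hs (φ t)
      have h4 := hφn t
      omega
    have h3 := hnp (φ t) (s (φ t) + a) hsa
    rw [← hshift] at h3
    have h4 := nd_mul_pow hb c (m' (φ t)) a (by omega) (hm'pos _)
    have h5 : (((range (D (φ t))).filter (fun i =>
        (((m' (φ t) : ℝ) / (b : ℝ) ^ i : ℝ) : Circ) ∈ V)).card) ≤
        ((range (nd b (m' (φ t) * c ^ a))).filter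
        (fun i => Near (b ^ M₀) η (((m' (φ t) * c ^ a : ℕ) : ℝ) / (b : ℝ) ^ i))).card := by
      apply card_le_card
      intro i hi
      rw [mem_filter, mem_range] at hi ⊢
      refine ⟨lt_of_lt_of_le hi.1 h4.1, ?_⟩
      apply near_of_norm
      obtain ⟨d, g1, g2, g3⟩ := hi.2
      rw [hcoe] at g3
      exact ⟨d, g1, g2, g3⟩
    have h6 : ((((range (D (φ t))).filter (fun i =>
        (((m' (φ t) : ℝ) / (b : ℝ) ^ i : ℝ) : Circ) ∈ V)).card : ℕ) : ℝ) ≤
        (((range (nd b (m' (φ t) * c ^ a))).filter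
        (fun i => Near (b ^ M₀) η (((m' (φ t) * c ^ a : ℕ) : ℝ) / (b : ℝ) ^ i))).card : ℝ) := by
      exact_mod_cast h5
    refine h6.trans (h3.le.trans ?_)
    have h7 : (nd b (m' (φ t) * c ^ a) : ℝ) ≤ D (φ t) + a * nd b c := by exact_mod_cast h4.2
    have h8 := hLR t
    have h9 := hDLR t
    have h10 : ((a:ℝ) * nd b c) / (ε / 2) ≤ D (φ t) := by
      have := (Nat.le_ceil _).trans (by exact_mod_cast h2 : ((⌈((a:ℝ) * nd b c) / (ε / 2)⌉₊ : ℕ) : ℝ) ≤ t)
      linarith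
    rw [div_le_iff₀ (by positivity)] at h10
    have hac : (0:ℝ) ≤ (a:ℝ) * nd b c := by positivity
    nlinarith
  have h1 := lt_of_lt_of_le ha (measure_mono hsub)
  exact absurd (lt_of_lt_of_le h1 hPV) (lt_irrefl _)

end Pool.Agent.R485.ZO
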