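import Mathlib
import Pool.Agent.R485.ZO.Main

set_option autoImplicit false

/-! All words of a given length; the converse. -/

namespace Pool.Agent.R485.ZO

open Finset Filter Topology
open Pool.Agent.H705R2

open Classical in
/-- all but a proportion `ε` of the places of `m` are near fractions -/
def AP (b K : ℕ) (ε η : ℝ) (m : ℕ) : Prop :=
  (1 - ε) * nd b m ≤ ((range (nd b m)).filter (fun i => Near K η ((m : ℝ) / (b : ℝ) ^ i))).card

theorem Near.mono {K K' : ℕ} (h : K ≤ K') {η y : ℝ} (hy : Near K η y) : Near K' η y := by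
  obtain ⟨d, h1, h2, h3⟩ := hy
  exact ⟨d, h1, h2.trans h, h3⟩

theorem AP.mono {b K K' : ℕ} (h : K ≤ K') {ε η : ℝ} {m : ℕ} (hm : AP b K ε η m) :
    AP b K' ε η m := by
  classical
  refine hm.trans ?_
  have := card_le_card (s := (range (nd b m)).filter (fun i => Near K η ((m : ℝ) / (b : ℝ) ^ i)))
    (t := (range (nd b m)).filter (fun i => Near K' η ((m : ℝ) / (b : ℝ) ^ i))) (by
      intro i hi
      rw [mem_filter] at hi ⊢
      exact ⟨hi.1, hi.2.mono h⟩)
  exact_mod_cast this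

open Classical in
theorem core_all {b c : ℕ} (hb : 2 ≤ b) (hc : 2 ≤ c) (h : MulIndep b c) (k : ℕ)
    {δ : ℝ} (hδ : 0 < δ) :
    ∃ K : ℕ, ∀ ε : ℝ, 0 < ε → ∀ η : ℝ, 0 < η → ∃ L₀ : ℕ, ∀ L : ℕ, L₀ ≤ L → ∀ m : ℕ,
      b ^ (L ^ 3) ≤ m →
      (((range (L ^ 2)).filter (fun j => ∃ W < b ^ k,
        (L : ℝ) * occ b k W (m * c ^ j) < nd b (m * c ^ j))).card : ℝ) ≤ δ * (L : ℝ) ^ 2 ∨
      ∃ j < L ^ 2, AP b K ε η (m * c ^ j) := by
  have hbk : (0:ℝ) < (b:ℝ) ^ k := by
    have : (0:ℝ) < b := by exact_mod_cast (by omega : 0 < b)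
    positivity
  have hcore := fun W : Fin (b ^ k) => core hb hc h W.2 (δ := δ / (b:ℝ) ^ k) (by positivity)
  choose K hK using hcore
  refine ⟨univ.sup K, fun ε hε η hη => ?_⟩
  have hcore2 := fun W : Fin (b ^ k) => hK W ε hε η hη
  choose L₀ hL₀ using hcore2
  refine ⟨univ.sup L₀, fun L hL m hm => ?_⟩
  by_cases hap : ∃ j < L ^ 2, AP b (univ.sup K) ε η (m * c ^ j)
  · exact Or.inr hap
  left
  push Not at hap
  have h1 : ∀ W : Fin (b ^ k), (((range (L ^ 2)).filter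
      (fun j => (L : ℝ) * occ b k W (m * c ^ j) < nd b (m * c ^ j))).card : ℝ) ≤
        δ / (b:ℝ) ^ k * (L : ℝ) ^ 2 := by
    intro W
    rcases hL₀ W L ((le_sup (mem_univ W)).trans hL) m hm with h2 | ⟨j, hj, h2⟩
    · exact h2
    · exact absurd (AP.mono (le_sup (mem_univ W)) h2) (hap j hj)
  have h2 : ((range (L ^ 2)).filter (fun j => ∃ W < b ^ k,
        (L : ℝ) * occ b k W (m * c ^ j) < nd b (m * c ^ j))) ⊆
      (univ : Finset (Fin (b ^ k))).biUnion (fun W => (range (L ^ 2)).filter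
      (fun j => (L : ℝ) * occ b k W (m * c ^ j) < nd b (m * c ^ j))) := by
    intro j hj
    rw [mem_filter] at hj
    obtain ⟨hj1, W, hW, hj2⟩ := hj
    rw [mem_biUnion]
    exact ⟨⟨W, hW⟩, mem_univ _, by rw [mem_filter]; exact ⟨hj1, hj2⟩⟩
  have h3 := (card_le_card h2).trans card_biUnion_le
  have h4 : (((range (L ^ 2)).filter (fun j => ∃ W < b ^ k,
        (L : ℝ) * occ b k W (m * c ^ j) < nd b (m * c ^ j))).card : ℝ) ≤
      ∑ W : Fin (b ^ k), (((range (L ^ 2)).filter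
      (fun j => (L : ℝ) * occ b k W (m * c ^ j) < nd b (m * c ^ j))).card : ℝ) := by
    exact_mod_cast h3
  refine h4.trans ((sum_le_sum fun W _ => h1 W).trans (le_of_eq ?_))
  rw [sum_const, card_univ, Fintype.card_fin, nsmul_eq_mul]
  push_cast
  field_simp

lemma modkey {B q A X : ℕ} (hB : 1 ≤ B) (h : B * q + A < X + 2) :
    (A + (X + 1 - (B * q + A)) + B - 1) % B = X % B := by
  have e1 : X + B = B * q + (A + (X + 1 - (B * q + A)) + B - 1) := by
    generalize B * q = Bq at *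
    omega
  have e2 : (X + B) % B = X % B := Nat.add_mod_right _ _
  rw [← e2, e1, Nat.mul_add_mod]

/-- a word which does not occur next to a place that is near a fraction -/
theorem missing_word {b : ℕ} (hb : 2 ≤ b) (K : ℕ) : ∃ k W : ℕ, 1 ≤ k ∧ W < b ^ k ∧
    ∀ η : ℝ, η ≤ 1 / (b : ℝ) ^ k → ∀ m i : ℕ, k ≤ i → m / b ^ (i - k) % b ^ k = W →
      ¬ Near K η ((m : ℝ) / (b : ℝ) ^ i) := by
  classical
  obtain ⟨k, hk1, hlt⟩ : ∃ k, 1 ≤ k ∧ 3 * K ^ 2 < b ^ k := by
    refine ⟨3 * K ^ 2 + 1, by omega, ?_⟩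
    have h1 : 3 * K ^ 2 + 1 < b ^ (3 * K ^ 2 + 1) := Nat.lt_pow_self (by omega)
    omega
  set T : Finset ℕ := ((Icc 1 K) ×ˢ (range K ×ˢ range 3)).image
    (fun t : ℕ × ℕ × ℕ => (b ^ k * t.2.1 / t.1 + t.2.2 + b ^ k - 1) % b ^ k) with hT
  have hcard : T.card ≤ 3 * K ^ 2 := by
    refine card_image_le.trans ?_
    rw [card_product, card_product, Nat.card_Icc, card_range, card_range]
    apply le_of_eq
    simp only [Nat.add_sub_cancel]
    ring
  obtain ⟨W, hW1, hW2⟩ : ∃ W ∈ range (b ^ k), W ∉ T := by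
    by_contra hcon
    push Not at hcon
    have := card_le_card (fun W hW => hcon W hW : range (b ^ k) ⊆ T)
    rw [card_range] at this
    omega
  rw [mem_range] at hW1
  refine ⟨k, W, by omega, hW1, fun η hη m i hki hmi hnear => hW2 ?_⟩
  obtain ⟨d, hd1, hd2, z', hz'⟩ := hnear
  have hb0 : (0:ℝ) < b := by exact_mod_cast (by omega : 0 < b)
  have hbk : (0:ℝ) < (b:ℝ) ^ k := by positivity
  have hbk1 : (1:ℝ) ≤ (b:ℝ) ^ k := one_le_pow₀ (by exact_mod_cast (by omega : 1 ≤ b))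
  have hη1 : η ≤ 1 := hη.trans (by rw [div_le_one hbk]; exact hbk1)
  have hd0 : (0:ℝ) < d := by exact_mod_cast (by omega : 0 < d)
  have hd1R : (1:ℝ) ≤ d := by exact_mod_cast hd1
  set y : ℝ := (m : ℝ) / (b : ℝ) ^ i with hy
  have hy0 : 0 ≤ y := by positivity
  have hz0 : 0 ≤ z' := by
    have h1 := (abs_lt.1 hz').2
    have h2 : (-1 : ℝ) < z' := by
      have : 0 ≤ (d:ℝ) * y := by positivity
      linarith
    have h3 : (-1 : ℤ) < z' := by exact_mod_cast h2
    omega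
  obtain ⟨z1, rfl⟩ := Int.eq_ofNat_of_zero_le hz0
  set q := z1 / d with hq
  set z := z1 % d with hz
  have hz1 : z1 = d * q + z := (Nat.div_add_mod z1 d).symm
  have hzd : z < d := Nat.mod_lt _ (by omega)
  set X := m / b ^ (i - k) with hX
  set A := b ^ k * z / d with hA
  -- the floor of `b ^ k * y`
  obtain ⟨e, rfl⟩ : ∃ e, i = e + k := ⟨i - k, by omega⟩
  have hek : e + k - k = e := by omega
  rw [hek] at hX
  have hbe : (0:ℝ) < (b:ℝ) ^ e := by positivity
  have hyk : (b:ℝ) ^ k * y = (m:ℝ) / (b:ℝ) ^ e := by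
    rw [hy, pow_add]
    field_simp
  have hX1 : (X : ℝ) ≤ (b:ℝ) ^ k * y := by
    rw [hyk, le_div_iff₀ hbe, hX]
    exact_mod_cast Nat.div_mul_le_self m (b ^ e)
  have hX2 : (b:ℝ) ^ k * y < X + 1 := by
    rw [hyk, div_lt_iff₀ hbe, hX]
    have := Nat.lt_mul_div_succ m (show 0 < b ^ e by positivity)
    rw [mul_comm] at this
    exact_mod_cast this
  -- the floor of `b ^ k * z / d`
  have hA1 : (A : ℝ) * d ≤ (b:ℝ) ^ k * z := by
    rw [hA]
    exact_mod_cast Nat.div_mul_le_self (b ^ k * z) d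
  have hA2 : (b:ℝ) ^ k * z < ((A : ℝ) + 1) * d := by
    rw [hA]
    have := Nat.lt_mul_div_succ (b ^ k * z) (show 0 < d by omega)
    rw [mul_comm d] at this
    exact_mod_cast this
  -- comparison
  have hcmp : |(b:ℝ) ^ k * y * d - (b:ℝ) ^ k * (d * q + z)| < d := by
    have e1 : (b:ℝ) ^ k * y * d - (b:ℝ) ^ k * (d * q + z) = (b:ℝ) ^ k * (d * y - (z1 : ℝ)) := by
      rw [hz1]
      push_cast
      ring
    have h1 : |(d:ℝ) * y - (z1:ℝ)| < 1 / (b:ℝ) ^ k := by
      refine lt_of_lt_of_le ?_ hη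
      simpa using hz'
    rw [e1, abs_mul, abs_of_pos hbk]
    rw [lt_div_iff₀ hbk, mul_comm] at h1
    linarith
  rw [abs_lt] at hcmp
  have hu : (X : ℝ) < (b:ℝ) ^ k * q + A + 2 := by
    have h1 : (X : ℝ) * d < ((b:ℝ) ^ k * q + A + 2) * d := by
      have h2 : (X : ℝ) * d ≤ (b:ℝ) ^ k * y * d := by gcongr
      nlinarith [hcmp.2]
    exact lt_of_mul_lt_mul_right h1 hd0.le
  have hl : (b:ℝ) ^ k * q + A < X + 2 := by
    have h1 : ((b:ℝ) ^ k * q + A) * d < ((X:ℝ) + 2) * d := by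
      have h2 : (b:ℝ) ^ k * y * d < (X + 1) * d := by gcongr
      nlinarith [hcmp.1]
    exact lt_of_mul_lt_mul_right h1 hd0.le
  have hu' : X < b ^ k * q + A + 2 := by exact_mod_cast hu
  have hl' : b ^ k * q + A < X + 2 := by exact_mod_cast hl
  rw [hT, mem_image]
  refine ⟨(d, z, X + 1 - (b ^ k * q + A)), ?_, ?_⟩
  · rw [mem_product, mem_product, mem_Icc, mem_range, mem_range]
    refine ⟨⟨hd1, hd2⟩, by simp only; omega, by simp only; omega⟩
  · simp only
    rw [← hA, ← hmi]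
    exact modkey (Nat.one_le_pow _ _ (by omega)) hl'

open Classical in
/-- few occurrences of the missing word, also after multiplication by powers -/
theorem few_occ {b c K k W : ℕ} (hb : 2 ≤ b) (hc : 2 ≤ c)
    (hmiss : ∀ η : ℝ, η ≤ 1 / (b : ℝ) ^ k → ∀ m i : ℕ, k ≤ i → m / b ^ (i - k) % b ^ k = W →
      ¬ Near K η ((m : ℝ) / (b : ℝ) ^ i)) {M : ℕ} {ε η : ℝ} (hη0 : 0 < η)
    (hη : (c : ℝ) ^ M * η ≤ 1 / (b : ℝ) ^ k) {m : ℕ} (hm : 1 ≤ m) (hAP : AP b K ε η m)
    {j : ℕ} (hj : j ≤ M) :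
    (occ b k W (m * c ^ j) : ℝ) ≤ 1 + ε * nd b m + M * nd b c := by
  have hnd := nd_mul_pow hb c m j (by omega) hm
  have hc1 : (1:ℝ) ≤ c := by exact_mod_cast (by omega : 1 ≤ c)
  -- near places persist
  have hpers : ∀ i, Near K η ((m : ℝ) / (b : ℝ) ^ i) →
      Near K ((c : ℝ) ^ M * η) (((m * c ^ j : ℕ) : ℝ) / (b : ℝ) ^ i) := by
    rintro i ⟨d, h1, h2, z, h3⟩
    refine ⟨d, h1, h2, z * (c ^ j : ℕ), ?_⟩
    have e1 : (d : ℝ) * (((m * c ^ j : ℕ) : ℝ) / (b : ℝ) ^ i) - ((z * ((c ^ j : ℕ) : ℤ) : ℤ) : ℝ) =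
        (c:ℝ) ^ j * ((d:ℝ) * ((m:ℝ) / (b:ℝ) ^ i) - z) := by
      push_cast
      ring
    have hcj : (0:ℝ) < (c:ℝ) ^ j := by positivity
    rw [e1, abs_mul, abs_of_pos hcj]
    calc (c:ℝ) ^ j * |(d:ℝ) * ((m:ℝ) / (b:ℝ) ^ i) - z| < (c:ℝ) ^ j * η := by gcongr
      _ ≤ (c:ℝ) ^ M * η := by gcongr
  -- occurrences are at places which are not near
  have hsub : (range (nd b (m * c ^ j) + 1 - k)).filter
      (fun i => m * c ^ j / b ^ i % b ^ k = W) ⊆
      (insert (nd b (m * c ^ j)) (((range (nd b m)).filter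
        (fun i => ¬ Near K η ((m : ℝ) / (b : ℝ) ^ i))) ∪ (Ico (nd b m) (nd b (m * c ^ j))))).image
        (fun i => i - k) := by
    intro i hi
    rw [mem_filter, mem_range] at hi
    rw [mem_image]
    refine ⟨i + k, ?_, by omega⟩
    rw [mem_insert, mem_union, mem_filter, mem_range, mem_Ico]
    have hnn : ¬ Near K ((c : ℝ) ^ M * η) (((m * c ^ j : ℕ) : ℝ) / (b : ℝ) ^ (i + k)) :=
      hmiss _ hη _ (i + k) (by omega) (by rw [Nat.add_sub_cancel]; exact hi.2)
    by_cases h1 : i + k < nd b m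
    · right; left
      exact ⟨h1, fun h => hnn (hpers _ h)⟩
    · by_cases h2 : i + k = nd b (m * c ^ j)
      · left; exact h2
      · right; right
        omega
  have hcard := (card_le_card hsub).trans (card_image_le.trans ((card_insert_le _ _).trans
    (Nat.add_le_add_right (card_union_le _ _) 1)))
  rw [Nat.card_Ico] at hcard
  have hnot : (((range (nd b m)).filter
        (fun i => ¬ Near K η ((m : ℝ) / (b : ℝ) ^ i))).card : ℝ) ≤ ε * nd b m := by
    have h1 := card_filter_add_card_filter_not (s := range (nd b m))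
      (fun i => Near K η ((m : ℝ) / (b : ℝ) ^ i))
    rw [card_range] at h1
    have h2 : (((range (nd b m)).filter (fun i => Near K η ((m : ℝ) / (b : ℝ) ^ i))).card : ℝ) +
      ((range (nd b m)).filter (fun i => ¬ Near K η ((m : ℝ) / (b : ℝ) ^ i))).card = nd b m := by
      exact_mod_cast h1
    unfold AP at hAP
    linarith
  have h3 : nd b (m * c ^ j) - nd b m ≤ M * nd b c := by
    have : j * nd b c ≤ M * nd b c := Nat.mul_le_mul_right _ hj
    omega
  have h4 : occ b k W (m * c ^ j) ≤ ((range (nd b m)).filter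
        (fun i => ¬ Near K η ((m : ℝ) / (b : ℝ) ^ i))).card + M * nd b c + 1 := by
    unfold occ
    omega
  have h5 : (occ b k W (m * c ^ j) : ℝ) ≤ (((range (nd b m)).filter
        (fun i => ¬ Near K η ((m : ℝ) / (b : ℝ) ^ i))).card : ℝ) + M * nd b c + 1 := by
    exact_mod_cast h4
  linarith

end Pool.Agent.R485.ZO
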